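import Pool.Agent.helper65.T1.SpecN

set_option autoImplicit false

open MeasureTheory

namespace Pool.Agent.T1

theorem NPW_add (x y : ℝ) : Nex (x + y) = Nex x * Nex y := by
  unfold Nex
  rw [← Complex.exp_add]
  congr 1
  push_cast
  ring

theorem NPW_conj (x : ℝ) : (starRingEnd ℂ) (Nex x) = Nex (-x) := by
  unfold Nex
  rw [← Complex.exp_conj]
  congr 1
  rw [map_mul, Complex.conj_ofReal, Complex.conj_I]
  push_cast
  ring

theorem NPW_cont (c d : ℝ) : Continuous (fun t : ℝ => Nex (c * t + d)) := by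
  unfold Nex
  fun_prop

theorem NPW_cont2 (c : ℝ) : Continuous (fun t : ℝ => Nex (c * t)) := by
  unfold Nex
  fun_prop

/-- the weight `2 (1 - |t|/(2A))` -/
theorem NPW_weight (h : ℝ → ℝ) (hc : Continuous h) (h0 : ∀ t, 0 ≤ h t) (A : ℝ) (hA : 0 < A) :
    ∫ t in (-A)..A, h t ≤ ∫ t in (-(2 * A))..(2 * A), 2 * (1 - |t| / (2 * A)) * h t := by
  have hcw : Continuous (fun t : ℝ => 2 * (1 - |t| / (2 * A)) * h t) := by fun_prop
  have h1 : ∫ t in (-A)..A, h t ≤ ∫ t in (-A)..A, 2 * (1 - |t| / (2 * A)) * h t := by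
    apply intervalIntegral.integral_mono_on (by linarith) (hc.intervalIntegrable _ _)
      (hcw.intervalIntegrable _ _)
    intro t ht
    have h2 : |t| ≤ A := abs_le.2 ⟨ht.1, ht.2⟩
    have h3 : |t| / (2 * A) ≤ 1 / 2 := by
      rw [div_le_iff₀ (by positivity)]
      linarith
    nlinarith [h0 t]
  refine h1.trans ?_
  apply intervalIntegral.integral_mono_interval (by linarith) (by linarith) (by linarith)
  · refine (ae_restrict_iff' measurableSet_Ioc).2 (Filter.Eventually.of_forall ?_)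
    intro t ht
    have h2 : |t| ≤ 2 * A := abs_le.2 ⟨ht.1.le, ht.2⟩
    have h3 : |t| / (2 * A) ≤ 1 := by
      rw [div_le_iff₀ (by positivity)]
      linarith
    have h4 : 0 ≤ 2 * (1 - |t| / (2 * A)) := by linarith
    exact mul_nonneg h4 (h0 t)
  · exact hcw.intervalIntegrable _ _

theorem NPW_expand {ι : Type} (s : Finset ι) (a b : ι → ℝ) (t η : ℝ) :
    ((‖∑ i ∈ s, Nex (a i * t + b i * η)‖ ^ 2 : ℝ) : ℂ) =
      ∑ i ∈ s, ∑ j ∈ s, Nex ((a i - a j) * t) * Nex ((b i - b j) * η) := by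
  have h1 : ((‖∑ i ∈ s, Nex (a i * t + b i * η)‖ ^ 2 : ℝ) : ℂ) =
      (∑ i ∈ s, Nex (a i * t + b i * η)) * (starRingEnd ℂ) (∑ i ∈ s, Nex (a i * t + b i * η)) := by
    rw [Complex.mul_conj, Complex.normSq_eq_norm_sq]
  rw [h1, map_sum, Finset.sum_mul_sum]
  apply Finset.sum_congr rfl
  intro i _
  apply Finset.sum_congr rfl
  intro j _
  rw [NPW_conj, ← NPW_add, ← NPW_add]
  congr 1
  ring

/-- the integral of the weighted expansion -/
theorem NPW_int {ι : Type} (s : Finset ι) (b : ι → ℝ) (c : ι → ι → ℂ) (A : ℝ) (κ : ℝ → ℝ)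
    (hκ : ∀ x : ℝ, ∫ t in (-(2 * A))..(2 * A), ((1 - |t| / (2 * A) : ℝ) : ℂ) * Nex (x * t) = (κ x : ℂ))
    (f : ℝ → ℝ) (hf : ∀ t, (f t : ℂ) = ∑ i ∈ s, ∑ j ∈ s, c i j * Nex ((b i - b j) * t)) :
    ((∫ t in (-(2 * A))..(2 * A), 2 * (1 - |t| / (2 * A)) * f t : ℝ) : ℂ) =
      ∑ i ∈ s, ∑ j ∈ s, c i j * ((2 * κ (b i - b j) : ℝ) : ℂ) := by
  rw [← intervalIntegral.integral_ofReal]
  have hcont : ∀ i j : ι, Continuous (fun t : ℝ => (2 * c i j) * (((1 - |t| / (2 * A) : ℝ) : ℂ) *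
      Nex ((b i - b j) * t))) := by
    intro i j
    have h1 := NPW_cont2 (b i - b j)
    have h2 : Continuous (fun t : ℝ => ((1 - |t| / (2 * A) : ℝ) : ℂ)) :=
      Complex.continuous_ofReal.comp (by fun_prop)
    exact continuous_const.mul (h2.mul h1)
  have h1 : ∀ t : ℝ, ((2 * (1 - |t| / (2 * A)) * f t : ℝ) : ℂ) =
      ∑ i ∈ s, ∑ j ∈ s, (2 * c i j) * (((1 - |t| / (2 * A) : ℝ) : ℂ) * Nex ((b i - b j) * t)) := by
    intro t
    rw [Complex.ofReal_mul, Complex.ofReal_mul, hf t, Finset.mul_sum]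
    apply Finset.sum_congr rfl
    intro i _
    rw [Finset.mul_sum]
    apply Finset.sum_congr rfl
    intro j _
    push_cast
    ring
  simp_rw [h1]
  rw [intervalIntegral.integral_finsetSum
    (fun i _ => (continuous_finsetSum s (fun j _ => hcont i j)).intervalIntegrable _ _)]
  apply Finset.sum_congr rfl
  intro i _
  rw [intervalIntegral.integral_finsetSum (fun j _ => (hcont i j).intervalIntegrable _ _)]
  apply Finset.sum_congr rfl
  intro j _
  rw [intervalIntegral.integral_const_mul, hκ]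
  push_cast
  ring

/-- the bound of `2 κ` -/
theorem NPW_kappa (T x κ : ℝ) (hT : 0 < T) (h1 : κ ≤ 2 * T) (h2 : κ * x ^ 2 * (2 * T) ≤ 1) :
    2 * κ ≤ 5 * T * (1 / (1 + (T * x) ^ 2)) := by
  rw [mul_one_div, le_div_iff₀ (by positivity)]
  have h3 : κ * x ^ 2 * (2 * T) * T ≤ 1 * T := mul_le_mul_of_nonneg_right h2 hT.le
  nlinarith

theorem NPW_core {ι : Type} (s : Finset ι) (a b : ι → ℝ) (T H : ℝ) (hT : 0 < T) (hH : 0 < H)
    (κ μ : ℝ → ℝ) (k3 : ∀ x : ℝ, ∫ t in (-(2 * T))..(2 * T), ((1 - |t| / (2 * T) : ℝ) : ℂ) * Nex (x * t) = (κ x : ℂ))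
    (m3 : ∀ x : ℝ, ∫ t in (-(2 * H))..(2 * H), ((1 - |t| / (2 * H) : ℝ) : ℂ) * Nex (x * t) = (μ x : ℂ))
    (f : ℝ → ℝ → ℝ) (hfc : Continuous (fun p : ℝ × ℝ => f p.1 p.2)) (hf0 : ∀ t η, 0 ≤ f t η)
    (hfexp : ∀ t η, ((f t η : ℝ) : ℂ) = ∑ i ∈ s, ∑ j ∈ s, Nex ((a i - a j) * t) * Nex ((b i - b j) * η)) :
    ∫ t in (-T)..T, ∫ η in (-H)..H, f t η ≤
      ∑ i ∈ s, ∑ j ∈ s, (2 * μ (b i - b j)) * (2 * κ (a i - a j)) := by
  have hfη : ∀ t, Continuous (fun η => f t η) := fun t =>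
    hfc.comp (Continuous.prodMk continuous_const continuous_id)
  have hcc : Continuous (fun p : ℝ × ℝ => 2 * (1 - |p.2| / (2 * H)) * f p.1 p.2) :=
    Continuous.mul (by fun_prop) hfc
  have hgc : Continuous (fun t : ℝ => ∫ η in (-(2 * H))..(2 * H), 2 * (1 - |η| / (2 * H)) * f t η) :=
    intervalIntegral.continuous_parametric_intervalIntegral_of_continuous' hcc _ _
  have hle1 : ∀ t, ∫ η in (-H)..H, f t η ≤ ∫ η in (-(2 * H))..(2 * H), 2 * (1 - |η| / (2 * H)) * f t η :=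
    fun t => NPW_weight (f t) (hfη t) (hf0 t) H hH
  have hin : ∀ t, 0 ≤ ∫ η in (-H)..H, f t η := fun t =>
    intervalIntegral.integral_nonneg (by linarith) (fun η _ => hf0 t η)
  have hinc : Continuous (fun t => ∫ η in (-H)..H, f t η) :=
    intervalIntegral.continuous_parametric_intervalIntegral_of_continuous' hfc _ _
  generalize hg : (fun t : ℝ => ∫ η in (-(2 * H))..(2 * H), 2 * (1 - |η| / (2 * H)) * f t η) = g at hgc
  have hgt : ∀ t, g t = ∫ η in (-(2 * H))..(2 * H), 2 * (1 - |η| / (2 * H)) * f t η := by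
    intro t
    rw [← hg]
  have hle1' : ∀ t, ∫ η in (-H)..H, f t η ≤ g t := fun t => by rw [hgt]; exact hle1 t
  have hg0 : ∀ t, 0 ≤ g t := fun t => (hin t).trans (hle1' t)
  have hle2 : ∫ t in (-T)..T, ∫ η in (-H)..H, f t η ≤ ∫ t in (-T)..T, g t :=
    intervalIntegral.integral_mono_on (by linarith) (hinc.intervalIntegrable _ _)
      (hgc.intervalIntegrable _ _) (fun t _ => hle1' t)
  have hle3 := NPW_weight g hgc hg0 T hT
  have hgexp : ∀ t, ((g t : ℝ) : ℂ) = ∑ i ∈ s, ∑ j ∈ s, (((2 * μ (b i - b j) : ℝ)) : ℂ) *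
      Nex ((a i - a j) * t) := by
    intro t
    have h1 := NPW_int s b (fun i j => Nex ((a i - a j) * t)) H μ m3 (f t) (hfexp t)
    rw [hgt]
    refine h1.trans ?_
    apply Finset.sum_congr rfl
    intro i _
    apply Finset.sum_congr rfl
    intro j _
    rw [mul_comm]
  have hval := NPW_int s a (fun i j => (((2 * μ (b i - b j) : ℝ)) : ℂ)) T κ k3 g hgexp
  have hval2 : ∫ t in (-(2 * T))..(2 * T), 2 * (1 - |t| / (2 * T)) * g t =
      ∑ i ∈ s, ∑ j ∈ s, (2 * μ (b i - b j)) * (2 * κ (a i - a j)) := by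
    have : ((∫ t in (-(2 * T))..(2 * T), 2 * (1 - |t| / (2 * T)) * g t : ℝ) : ℂ) =
      ((∑ i ∈ s, ∑ j ∈ s, (2 * μ (b i - b j)) * (2 * κ (a i - a j)) : ℝ) : ℂ) := by
      rw [hval, Complex.ofReal_sum]
      apply Finset.sum_congr rfl
      intro i _
      rw [Complex.ofReal_sum]
      apply Finset.sum_congr rfl
      intro j _
      push_cast
      ring
    exact Complex.ofReal_injective this
  rw [← hval2]
  exact hle2.trans hle3

theorem NPW_proof (hNFT : NFT_stmt) : NPW_stmt := by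
  intro ι s a b T H hT hH
  choose κ k0 k1 k2 k3 using fun x => hNFT (2 * T) (by positivity) x
  choose μ m0 m1 m2 m3 using fun x => hNFT (2 * H) (by positivity) x
  have hfc : Continuous (fun p : ℝ × ℝ => ‖∑ i ∈ s, Nex (a i * p.1 + b i * p.2)‖ ^ 2) := by
    have : ∀ i : ι, Continuous (fun p : ℝ × ℝ => Nex (a i * p.1 + b i * p.2)) := by
      intro i
      unfold Nex
      fun_prop
    exact (continuous_norm.comp (continuous_finsetSum s (fun i _ => this i))).pow 2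
  refine (NPW_core s a b T H hT hH κ μ k3 m3 (fun t η => ‖∑ i ∈ s, Nex (a i * t + b i * η)‖ ^ 2)
    hfc (fun t η => by positivity) (fun t η => NPW_expand s a b t η)).trans ?_
  rw [Finset.mul_sum]
  apply Finset.sum_le_sum
  intro i _
  rw [Finset.mul_sum]
  apply Finset.sum_le_sum
  intro j _
  have e1 := NPW_kappa T (a i - a j) (κ (a i - a j)) hT (k1 _) (k2 _)
  have e2 := NPW_kappa H (b i - b j) (μ (b i - b j)) hH (m1 _) (m2 _)
  have e3 : 0 ≤ 2 * κ (a i - a j) := by linarith [k0 (a i - a j)]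
  calc (2 * μ (b i - b j)) * (2 * κ (a i - a j)) ≤
      (5 * H * (1 / (1 + (H * (b i - b j)) ^ 2))) * (5 * T * (1 / (1 + (T * (a i - a j)) ^ 2))) :=
        mul_le_mul e2 e1 e3 (by positivity)
    _ = 25 * T * H * (1 / ((1 + (T * (a i - a j)) ^ 2) * (1 + (H * (b i - b j)) ^ 2))) := by
        rw [one_div, one_div, one_div, mul_inv]
        ring

end Pool.Agent.T1
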